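import Pool.Agent.W744.GL.Stm

/-!
# Project GL: the topological lemma (GL-ZORN)
-/

set_option autoImplicit false

open Set Filter Topology

namespace Pool.Agent.W585.GL.ZORN

open Pool.Agent.W744.GL

section

variable {X : Type} [TopologicalSpace X] [CompactSpace X]

/-- good sets -/
structure Good (A : Submodule ℝ (X → ℝ)) (SS : Set (Set X)) {T : Type} (t0 : T)
    (DD : Set (T → X)) (F : Set X) : Prop where
  cl : IsClosed F
  ne : F.Nonempty
  q : ∀ S ∈ SS, ∀ g ∈ A, ∃ x, x ∈ S ∧ x ∈ F ∧ ∀ y ∈ F, g y ≤ g x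
  d : ∀ L ∈ DD, L t0 ∈ F → ∀ t, L t ∈ F

variable (A : Submodule ℝ (X → ℝ)) (hA : ∀ u ∈ A, Continuous u) (SS : Set (Set X)) {T : Type}
  (t0 : T) (DD : Set (T → X))

include hA in
theorem closed_max (g : X → ℝ) (hg : g ∈ A) (F : Set X) : IsClosed {x | ∀ y ∈ F, g y ≤ g x} := by
  have e : {x | ∀ y ∈ F, g y ≤ g x} = ⋂ y ∈ F, {x | g y ≤ g x} := by
    ext x
    simp
  rw [e]
  exact isClosed_biInter fun y _ => isClosed_le continuous_const (hA g hg)

include hA in
theorem chain (hS : ∀ S ∈ SS, IsClosed S) (c : Set (Set X)) (hc : c ⊆ {F | Good A SS t0 DD F})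
    (hch : IsChain (· ⊆ ·) c) (hne : c.Nonempty) : Good A SS t0 DD (⋂₀ c) := by
  have : Nonempty c := hne.to_subtype
  have hdir : ∀ E : Set X → Set X, (∀ F F', F ⊆ F' → E F ⊆ E F') →
      Directed (· ⊇ ·) (fun F : c => E F) := by
    intro E hE F F'
    rcases hch.total F.2 F'.2 with h | h
    · exact ⟨F, subset_rfl, hE _ _ h⟩
    · exact ⟨F', hE _ _ h, subset_rfl⟩
  refine ⟨isClosed_sInter fun F hF => (hc hF).cl, ?_, ?_, ?_⟩
  · have h := IsCompact.nonempty_iInter_of_directed_nonempty_isCompact_isClosed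
      (fun F : c => (F : Set X)) (hdir id fun _ _ h => h) (fun F => (hc F.2).ne)
      (fun F => (hc F.2).cl.isCompact) (fun F => (hc F.2).cl)
    rw [sInter_eq_iInter]
    exact h
  · intro S hSS g hg
    have hcl : ∀ F : c, IsClosed (S ∩ (F : Set X) ∩ {x | ∀ y ∈ ⋂₀ c, g y ≤ g x}) := fun F =>
      ((hS S hSS).inter (hc F.2).cl).inter (closed_max A hA g hg _)
    have h := IsCompact.nonempty_iInter_of_directed_nonempty_isCompact_isClosed
      (fun F : c => S ∩ (F : Set X) ∩ {x | ∀ y ∈ ⋂₀ c, g y ≤ g x})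
      (hdir (fun F => S ∩ F ∩ {x | ∀ y ∈ ⋂₀ c, g y ≤ g x}) fun F F' h => by
        exact inter_subset_inter_left _ (inter_subset_inter_right _ h)) (fun F => by
        obtain ⟨x, h1, h2, h3⟩ := (hc F.2).q S hSS g hg
        exact ⟨x, ⟨h1, h2⟩, fun y hy => h3 y (hy F F.2)⟩)
      (fun F => (hcl F).isCompact) hcl
    obtain ⟨x, hx⟩ := h
    rw [mem_iInter] at hx
    obtain ⟨F0⟩ := this
    exact ⟨x, (hx F0).1.1, fun F hF => (hx ⟨F, hF⟩).1.2, (hx F0).2⟩
  · intro L hL h t F hF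
    exact (hc hF).d L hL (h F hF) t

include hA in
theorem shrink (hS : ∀ S ∈ SS, IsClosed S)
    (hD : ∀ L ∈ DD, ∀ u ∈ A, (∀ t, u (L t) ≤ u (L t0)) → ∀ t, u (L t) = u (L t0))
    (F : Set X) (hF : Good A SS t0 DD F) (u : X → ℝ) (hu : u ∈ A) :
    Good A SS t0 DD {x | x ∈ F ∧ ∀ y ∈ F, u y ≤ u x} := by
  obtain ⟨x0, hx0, hx0m⟩ := hF.cl.isCompact.exists_isMaxOn hF.ne (hA u hu).continuousOn
  have hx0m' : ∀ y ∈ F, u y ≤ u x0 := fun y hy => hx0m hy
  refine ⟨hF.cl.inter (closed_max A hA u hu F), ⟨x0, hx0, hx0m'⟩, ?_, ?_⟩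
  · intro S hSS g hg
    obtain ⟨B, hB⟩ : ∃ B : ℝ, ∀ x, |g x| ≤ B := by
      obtain ⟨B, hB⟩ := isCompact_univ.exists_bound_of_continuousOn (f := g)
        (hA g hg).continuousOn
      exact ⟨B, fun x => hB x (mem_univ x)⟩
    have hB0 : 0 ≤ B := (abs_nonneg _).trans (hB x0)
    obtain ⟨F', hF'⟩ : ∃ F' : Set X, F' = {x | x ∈ F ∧ ∀ y ∈ F, u y ≤ u x} := ⟨_, rfl⟩
    have hcl : ∀ n : ℕ, IsClosed (S ∩ F ∩ {x | u x0 - 2 * B / ((n : ℝ) + 1) ≤ u x} ∩
        {x | ∀ y ∈ F', g y ≤ g x}) := fun n =>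
      (((hS S hSS).inter hF.cl).inter (isClosed_le continuous_const (hA u hu))).inter
        (closed_max A hA g hg _)
    have h := IsCompact.nonempty_iInter_of_sequence_nonempty_isCompact_isClosed
      (fun n : ℕ => S ∩ F ∩ {x | u x0 - 2 * B / ((n : ℝ) + 1) ≤ u x} ∩
        {x | ∀ y ∈ F', g y ≤ g x}) (fun n => by
        refine inter_subset_inter_left _ (inter_subset_inter_right _ ?_)
        intro x hx
        have hx' : u x0 - 2 * B / (((n + 1 : ℕ) : ℝ) + 1) ≤ u x := hx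
        show u x0 - 2 * B / ((n : ℝ) + 1) ≤ u x
        have h1 : 2 * B / (((n + 1 : ℕ) : ℝ) + 1) ≤ 2 * B / ((n : ℝ) + 1) :=
          div_le_div_of_nonneg_left (by positivity) (by positivity) (by push_cast; linarith)
        linarith) (fun n => by
        have hn : (0 : ℝ) < (n : ℝ) + 1 := by positivity
        have hmem : (fun x => ((n : ℝ) + 1) * u x + g x) ∈ A :=
          A.add_mem (A.smul_mem ((n : ℝ) + 1) hu) hg
        obtain ⟨x, h1, h2, h3⟩ := hF.q S hSS _ hmem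
        refine ⟨x, ⟨⟨h1, h2⟩, ?_⟩, ?_⟩
        · have h4 := h3 x0 hx0
          have h5 := (abs_le.1 (hB x0)).1
          have h6 := (abs_le.1 (hB x)).2
          show u x0 - 2 * B / ((n : ℝ) + 1) ≤ u x
          have h7 : u x0 - u x ≤ 2 * B / ((n : ℝ) + 1) := by
            rw [le_div_iff₀ hn]
            linarith
          linarith
        · intro y hy
          rw [hF'] at hy
          have h4 := h3 y hy.1
          have h5 := hy.2 x h2
          nlinarith) (hcl 0).isCompact hcl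
    obtain ⟨x, hx⟩ := h
    rw [mem_iInter] at hx
    have hux : u x0 ≤ u x := by
      have h1 : Tendsto (fun n : ℕ => u x0 - 2 * B / ((n : ℝ) + 1)) atTop (𝓝 (u x0 - 0)) := by
        refine tendsto_const_nhds.sub ?_
        have := (tendsto_one_div_add_atTop_nhds_zero_nat (𝕜 := ℝ)).const_mul (2 * B)
        rw [mul_zero] at this
        refine this.congr fun n => ?_
        ring
      rw [sub_zero] at h1
      exact le_of_tendsto' h1 fun n => (hx n).1.2
    refine ⟨x, (hx 0).1.1.1, ⟨(hx 0).1.1.2, fun y hy => (hx0m' y hy).trans hux⟩, fun y hy => ?_⟩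
    have h2 := (hx 0).2
    rw [hF'] at h2
    exact h2 y hy
  · intro L hL h t
    have h1 : ∀ t, L t ∈ F := hF.d L hL h.1
    have h2 := hD L hL u hu fun t => h.2 (L t) (h1 t)
    refine ⟨h1 t, fun y hy => ?_⟩
    rw [h2 t]
    exact h.2 y hy

end

/-- GL-ZORN -/
theorem main : S_ZORN := by
  intro X _ _ _ _ A hA hsep SS hSS T t0 DD hD
  have huniv : Good A SS t0 DD (univ : Set X) :=
    ⟨isClosed_univ, univ_nonempty, fun S hS g hg => by
      obtain ⟨x, h1, h2⟩ := (hSS S hS).2 g hg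
      exact ⟨x, h1, mem_univ _, fun y _ => h2 y⟩, fun L _ _ t => mem_univ _⟩
  obtain ⟨F, -, hmin⟩ := zorn_superset_nonempty {F : Set X | Good A SS t0 DD F}
    (fun c hc hch hne => ⟨⋂₀ c, chain A hA SS t0 DD (fun S hS => (hSS S hS).1) c hc hch hne,
      fun s hs => sInter_subset_of_mem hs⟩) univ huniv
  have hF : Good A SS t0 DD F := hmin.prop
  have hconst : ∀ u ∈ A, ∀ x ∈ F, ∀ y ∈ F, u y ≤ u x := by
    intro u hu x hx y hy
    have h1 := shrink A hA SS t0 DD (fun S hS => (hSS S hS).1) hD F hF u hu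
    have h2 : F ⊆ {x | x ∈ F ∧ ∀ y ∈ F, u y ≤ u x} := hmin.le_of_le h1 (fun x hx => hx.1)
    exact (h2 hx).2 y hy
  obtain ⟨m, hm⟩ := hF.ne
  have huniq : ∀ x ∈ F, x = m := by
    intro x hx
    by_contra hne
    obtain ⟨u, hu, hne'⟩ := hsep x m hne
    exact hne' (le_antisymm (hconst u hu m hm x hx) (hconst u hu x hx m hm))
  refine ⟨m, fun S hS => ?_, fun L hL h t => ?_⟩
  · obtain ⟨x, h1, h2, -⟩ := hF.q S hS 0 A.zero_mem
    rwa [huniq x h2] at h1
  · exact huniq _ (hF.d L hL (h ▸ hm) t)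

end Pool.Agent.W585.GL.ZORN
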